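import Pool.Agent.H.MP_6a261b_co.B

set_option autoImplicit false

namespace Pool.Agent.Results.MP_6a261b_co.Yes

open Set unitInterval

/-- A drawing of a multigraph with n vertices and m edges; edge e joins s e and t e. -/
structure Drawing (n m : ℕ) where
  s : Fin m → Fin n
  t : Fin m → Fin n
  p : Fin n → ℝ × ℝ
  γ : Fin m → C(I, ℝ × ℝ)
  inj : Function.Injective p
  start : ∀ e, γ e 0 = p (s e)
  stop : ∀ e, γ e 1 = p (t e)
  avoid : ∀ e τ v, τ ≠ 0 → τ ≠ 1 → γ e τ ≠ p v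

variable {n m : ℕ} (D : Drawing n m)

def Mono : Prop := ∀ e, D.s e ≠ D.t e ∧ ∀ a b, (D.γ e a).1 = (D.γ e b).1 → D.γ e a = D.γ e b

/-- e and f are parallel, and homotopic with fixed ends away from the other vertices. -/
def Htp (e f : Fin m) : Prop := ∃ H : C(I × I, ℝ × ℝ), (∀ a, H (0, a) = D.γ e a) ∧
  ((D.s f = D.s e ∧ D.t f = D.t e ∧ ∀ a, H (1, a) = D.γ f a) ∨
    (D.t f = D.s e ∧ D.s f = D.t e ∧ ∀ a, H (1, a) = D.γ f (σ a))) ∧
  (∀ τ, H (τ, 0) = D.p (D.s e) ∧ H (τ, 1) = D.p (D.t e)) ∧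
  ∀ v, v ≠ D.s e → v ≠ D.t e → ∀ z, H z ≠ D.p v

def Cr (e f : Fin m) : Set (I × I) :=
  {z | z.1 ≠ 0 ∧ z.1 ≠ 1 ∧ z.2 ≠ 0 ∧ z.2 ≠ 1 ∧ D.γ e z.1 = D.γ f z.2}

open Pool.Agent.H.MP_6a261b_co

theorem result (n m k : ℕ) (D : Drawing n m) (h1 : Mono D) (h2 : ∀ e f, e ≠ f → ¬ Htp D e f)
    (h3 : ∀ e f, e ≠ f → (Cr D e f).encard ≤ k) :
    m ≤ 4 * ∑ l ∈ Finset.range (k + 1), n.choose (l + 1) := by
  classical
  obtain ⟨s, t, p, γ, inj, start, stop, avoid⟩ := D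
  simp only [Mono, Htp, Cr] at h1 h2 h3
  choose Y hY using fun e => graph (γ e) (h1 e).2
  obtain ⟨pos, q, pi, pq, ps, qm⟩ := srt p
  have x0 : ∀ e, (γ e 0).1 ≠ (γ e 1).1 := fun e h =>
    (h1 e).1 (inj (by rw [← start, ← stop]; exact (h1 e).2 _ _ h))
  have ed : ∀ e, ∃ u w, (p u).1 < (p w).1 ∧ ((s e = u ∧ t e = w) ∨ (t e = u ∧ s e = w)) := fun e => by
    have := x0 e
    rw [start, stop] at this
    exact this.lt_or_gt.elim (fun h => ⟨_, _, h, Or.inl ⟨rfl, rfl⟩⟩) fun h => ⟨_, _, h, Or.inr ⟨rfl, rfl⟩⟩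
  choose u w uw ed using ed
  have iv : ∀ e, uIcc (γ e 0).1 (γ e 1).1 = Icc (p (u e)).1 (p (w e)).1 := fun e => by
    rw [start, stop]
    rcases ed e with ⟨a, b⟩ | ⟨a, b⟩ <;> rw [a, b]
    · exact uIcc_of_le (uw e).le
    · exact uIcc_of_ge (uw e).le
  have rg : ∀ e a, (γ e a).1 ∈ Icc (p (u e)).1 (p (w e)).1 := fun e a => iv e ▸
    rng (g := fun a => (γ e a).1) (by fun_prop) (x0 e) (fun τ a0 a1 =>
      ⟨fun h => avoid e τ _ a0 a1 (((h1 e).2 _ _ h).trans (start e)),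
        fun h => avoid e τ _ a0 a1 (((h1 e).2 _ _ h).trans (stop e))⟩) a
  have yu : ∀ e, Y e (p (u e)).1 = (p (u e)).2 ∧ Y e (p (w e)).1 = (p (w e)).2 := fun e => by
    have a0 := hY e 0
    have a1 := hY e 1
    rw [start] at a0
    rw [stop] at a1
    rcases ed e with ⟨a, b⟩ | ⟨a, b⟩ <;> rw [← a, ← b]
    exacts [⟨a0, a1⟩, ⟨a1, a0⟩]
  have sj : ∀ e x, (p (u e)).1 < x → x < (p (w e)).1 →
      ∃ a, a ≠ 0 ∧ a ≠ 1 ∧ γ e a = (x, Y e x) := fun e x l1 l2 => by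
    obtain ⟨a, -, rfl⟩ := intermediate_value_uIcc (f := fun a => (γ e a).1) (a := 0) (b := 1)
      (by fun_prop) (show x ∈ _ from iv e ▸ ⟨l1.le, l2.le⟩)
    refine ⟨a, ?_, ?_, Prod.ext rfl (hY e a).symm⟩ <;> rintro rfl <;>
      simp only [start, stop] at l1 l2 <;> rcases ed e with ⟨a, b⟩ | ⟨a, b⟩
    · exact lt_irrefl _ (a ▸ l1)
    · exact lt_irrefl _ (b ▸ l2)
    · exact lt_irrefl _ (b ▸ l2)
    · exact lt_irrefl _ (a ▸ l1)
  have av : ∀ e v, v ≠ u e → v ≠ w e → (p v).1 ∈ Icc (p (u e)).1 (p (w e)).1 →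
      Y e (p v).1 ≠ (p v).2 := fun e v a b ⟨c, d⟩ h => by
    rcases c.eq_or_lt with c | c
    · exact a (inj (Prod.ext c.symm (by rw [← h, ← c, (yu e).1])))
    rcases d.eq_or_lt with d | d
    · exact b (inj (Prod.ext d (by rw [← h, d, (yu e).2])))
    obtain ⟨τ, t0, t1, e'⟩ := sj e _ c d
    exact avoid e τ v t0 t1 (by rw [e', h])
  have pm : ∀ v v', pos v ≤ pos v' → (p v).1 ≤ (p v').1 := fun v v' h => by
    rw [← (pq v).2, ← (pq v').2]; exact qm _ _ h (pq v').1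
  set S : Sys (Fin m) :=
    { lo := fun e => pos (u e)
      hi := fun e => pos (w e)
      sg := fun e i => sg (q i).2 (Y e (q i).1)
      lt := fun e => not_le.1 fun h => (uw e).not_ge (pm _ _ h)
      z1 := fun e => by simp [(pq _).2, yu, sg]
      z2 := fun e => by simp [(pq _).2, yu, sg]
      pm := fun e i a b => by
        obtain ⟨v, rfl⟩ := ps i (b.trans (pq _).1)
        rw [(pq v).2]
        exact sg_pm (av e v (fun h => a.ne' (congrArg pos h)) (fun h => b.ne (congrArg pos h))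
          ⟨pm _ _ a.le, pm _ _ b.le⟩) } with hS
  have := Sys.gen (D := S) k n Finset.univ ⟨fun e _ => (pq _).1, fun e _ f _ ⟨s1, s2, s3⟩ => ?_,
    fun e _ f _ ⟨a, a1, a2⟩ => ?_⟩
  · simpa using this
  · by_contra ne
    simp only [hS] at s1 s2 s3
    have eu := pi s1
    have ew : w e = w f := pi (by have := (pq (w e)).1; have := (pq (w f)).1; omega)
    have sd : ∀ v, v ≠ s e → v ≠ t e → (p v).1 ∈ Icc (p (u e)).1 (p (w e)).1 →
        (Y e (p v).1 < (p v).2 ∧ Y f (p v).1 < (p v).2) ∨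
          ((p v).2 < Y e (p v).1 ∧ (p v).2 < Y f (p v).1) := fun v a b c => by
      have d := av e v (by rcases ed e with ⟨x, y⟩ | ⟨x, y⟩ <;> rwa [← x])
        (by rcases ed e with ⟨x, y⟩ | ⟨x, y⟩ <;> rwa [← y]) c
      refine sg_eq ?_ d
      by_cases l1 : pos v ≤ pos (u e)
      · rw [le_antisymm (pm _ _ l1) c.1, (yu e).1, eu, (yu f).1]
      by_cases l2 : pos (w e) ≤ pos v
      · rw [le_antisymm c.2 (pm _ _ l2), (yu e).2, ew, (yu f).2]
      have := s3 (pos v) (pq v).1 (by omega) (by omega)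
      rwa [(pq v).2] at this
    have rf : ∀ a, (γ f a).1 ∈ Icc (p (u e)).1 (p (w e)).1 := fun a => by rw [eu, ew]; exact rg f a
    have : (s f = s e ∧ t f = t e) ∨ (t f = s e ∧ s f = t e) := by
      rcases ed e with ⟨a, b⟩ | ⟨a, b⟩ <;> rcases ed f with ⟨c, d⟩ | ⟨c, d⟩ <;>
        simp [a, b, c, d, eu, ew]
    rcases this with ⟨a, b⟩ | ⟨a, b⟩
    · obtain ⟨H, c1, c2, c3, c4⟩ := htpy (γ e) (γ f) (Y e) (Y f) (hY e) (hY f)
        (by rw [start, start, a]) (by rw [stop, stop, b]) (rg e) rf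
      exact h2 e f ne ⟨H, c1, Or.inl ⟨a, b, c2⟩, by simpa [start, stop] using c3,
        fun v x y => c4 _ (sd v x y)⟩
    · obtain ⟨H, c1, c2, c3, c4⟩ := htpy (γ e) ((γ f).comp ⟨σ, continuous_symm⟩) (Y e) (Y f) (hY e)
        (fun _ => hY f _) (by simp [start, stop, a]) (by simp [start, stop, b]) (rg e) fun _ => rf _
      exact h2 e f ne ⟨H, c1, Or.inr ⟨a, b, c2⟩, by simpa [start, stop] using c3,
        fun v x y => c4 _ (sd v x y)⟩
  · have b1 : ∀ i < k + 2, ((p (u e)).1 ≤ (q (a i)).1 ∧ (q (a i)).1 ≤ (p (w e)).1 ∧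
        (p (u f)).1 ≤ (q (a i)).1 ∧ (q (a i)).1 ≤ (p (w f)).1) ∧
        if Even i then Y e (q (a i)).1 < Y f (q (a i)).1 else Y f (q (a i)).1 < Y e (q (a i)).1 :=
      fun i hi => by
        obtain ⟨c1, c2⟩ := a2 i hi
        obtain ⟨v, hv⟩ := ps _ c1
        rw [← hv] at c2 ⊢
        rw [(pq v).2]
        split_ifs at c2 ⊢ <;> obtain ⟨d1, d2, d3, d4, d5⟩ := c2 <;> simp only [hS, (pq v).2] at d5
        · exact ⟨⟨pm _ _ d1, pm _ _ d2, pm _ _ d3, pm _ _ d4⟩, sg_lt d5⟩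
        · exact ⟨⟨pm _ _ d3, pm _ _ d4, pm _ _ d1, pm _ _ d2⟩, sg_lt d5⟩
    have ne : e ≠ f := fun h => by simpa [h] using (b1 0 (by omega)).2
    have b2 : ∀ i : Fin (k + 1), ∃ z : I × I, (z.1 ≠ 0 ∧ z.1 ≠ 1 ∧ z.2 ≠ 0 ∧ z.2 ≠ 1 ∧
        γ e z.1 = γ f z.2) ∧ (q (a i)).1 < (γ e z.1).1 ∧ (γ e z.1).1 < (q (a (i + 1))).1 :=
      fun ⟨i, hi⟩ => by
        obtain ⟨c1, c2⟩ := b1 i (by omega)
        obtain ⟨d1, d2⟩ := b1 (i + 1) (by omega)
        obtain ⟨z, z1, z2, z3⟩ := cross (Y e).continuous (Y f).continuous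
          (qm _ _ (a1 i (by omega)).le (a2 (i + 1) (by omega)).1) (by
            by_cases h : Even i
            · rw [if_pos h] at c2
              rw [if_neg (by simpa [Nat.even_add_one] using h)] at d2
              exact Or.inl ⟨c2, d2⟩
            · rw [if_neg h] at c2
              rw [if_pos (Nat.even_add_one.2 h)] at d2
              exact Or.inr ⟨c2, d2⟩)
        obtain ⟨x, x1, x2, x3⟩ := sj e z (c1.1.trans_lt z1) (z2.trans_le d1.2.1)
        obtain ⟨y, y1, y2, y3⟩ := sj f z (c1.2.2.1.trans_lt z1) (z2.trans_le d1.2.2.2)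
        exact ⟨(x, y), ⟨x1, x2, y1, y2, by rw [x3, y3, z3]⟩, by rwa [x3], by rwa [x3]⟩
    choose z z1 z2 z3 using b2
    have sm : StrictMono fun i => (γ e (z i).1).1 := Fin.strictMono_iff_lt_succ.2 fun i =>
      (z3 i.castSucc).trans (z2 i.succ)
    have zi : Function.Injective z := fun i j h => sm.injective (by simp only [h])
    have := zi.encard_range.trans ((encard_le_encard (range_subset_iff.2 z1)).trans (h3 e f ne))
    simp at this
    exact absurd (by exact_mod_cast this : k + 1 ≤ k) (by omega)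

end Pool.Agent.Results.MP_6a261b_co.Yes
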